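import Mathlib
import Pool.Agent.H.MP_0815b2_gt.C

namespace Pool.Agent.H.MP_0815b2_gt
open Complex Set

section
variable {D : Fin 4 → Set (ℝ × ℝ)} {l : Fin 4 → ℝ} {L : ℝ}

theorem Sys.cal (h : Sys D l L) : ∃ g : Fin 4 → ℝ, (∀ k, ∀ u ∈ D k, -u.2 ≤ g k) ∧
    ∀ k, ∀ v ∈ D (k + 1), g k ≤ v.1 := by
  have key : ∀ k, ∀ u ∈ D k, ∀ v ∈ D (k + 1), -u.2 ≤ v.1 := by
    intro k u hu v hv
    by_contra hn
    push Not at hn
    have e1 := h.unit _ _ hu
    have e2 := h.unit _ _ hv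
    by_cases h1 : v.2 < 0
    · have h2 : 0 ≤ v.1 := not_lt.1 fun h2 => h.quad _ v hv h2 h1
      exact h.nobad hu hv (by linarith) h1 (by nlinarith)
    by_cases h2 : u.1 < 0
    · have h3 : 0 ≤ u.2 := not_lt.1 fun h3 => h.quad _ u hu h2 h3
      refine h.mirror.nobad (k := -(k + 1)) (u := v.swap) (v := u.swap) (by simpa using hv)
        (by simpa using hu) (by simp only [Prod.snd_swap]; linarith) h2 ?_
      simp only [Prod.snd_swap]
      nlinarith
    · have := h.mono k u hu v hv (not_lt.1 h2) (not_lt.1 h1)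
      linarith
  have hg : ∀ k, ∃ g : ℝ, (∀ u ∈ D k, -u.2 ≤ g) ∧ ∀ v ∈ D (k + 1), g ≤ v.1 := by
    intro k
    obtain ⟨g, h1, h2⟩ := exists_between_of_forall_le (s := (fun u : ℝ × ℝ => -u.2) '' D k)
      (t := Prod.fst '' D (k + 1)) ((h.ne k).image _) ((h.ne _).image _)
      (by rintro _ ⟨u, hu, rfl⟩ _ ⟨v, hv, rfl⟩; exact key k u hu v hv)
    exact ⟨g, fun u hu => h1 ⟨u, hu, rfl⟩, fun v hv => h2 ⟨v, hv, rfl⟩⟩
  choose g g1 g2 using hg
  exact ⟨g, g1, g2⟩

theorem slack {S C g h : ℝ} (e : S ^ 2 + C ^ 2 = 1) (a1 : g ≤ S) (a2 : -C ≤ h) (g1 : -1 ≤ g)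
    (h1 : h ≤ 1) : h ^ 2 / 8 * (S - g) ≤ (1 - S) * (S - g) + (1 - C) * (C + h) := by
  have b1 : S ≤ 1 := by nlinarith
  have b2 : C ≤ 1 := by nlinarith
  have p1 := mul_nonneg (sub_nonneg.2 b1) (sub_nonneg.2 a1)
  have p2 := mul_nonneg (sub_nonneg.2 b2) (show 0 ≤ C + h by linarith)
  rcases le_total (h ^ 2) (4 * C ^ 2) with c | c
  · have : h ^ 2 / 8 ≤ 1 - S := by nlinarith
    nlinarith [mul_le_mul_of_nonneg_right this (sub_nonneg.2 a1)]
  · have h0 : 0 ≤ h := by nlinarith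
    have c1 : 2 * C ≤ h := by nlinarith
    have c2 : -h ≤ 2 * C := by nlinarith
    have c3 : h / 4 ≤ (1 - C) * (C + h) := by nlinarith
    have c4 : h ^ 2 / 8 * (S - g) ≤ h ^ 2 / 8 * 2 :=
      mul_le_mul_of_nonneg_left (by linarith) (by positivity)
    nlinarith

theorem Sys.eq (h : Sys D l L) (l0 : ∀ k, 0 ≤ l k) (l1 : ∀ k, 0 < l k + l (k + 1 + 1))
    (he : 2 * L = l 0 + l 1 + l 2 + l 3) :
    (∀ k, ∀ u ∈ D k, 0 ≤ u.1 ∧ 0 ≤ u.2) ∧ ∀ k, l k + l (k + 1) = L := by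
  obtain ⟨g, g1, g2⟩ := h.cal
  have hL := h.pos
  have gb : ∀ k, -1 ≤ g k ∧ g k ≤ 1 := fun k => by
    obtain ⟨u, hu⟩ := h.ne k
    obtain ⟨v, hv⟩ := h.ne (k + 1)
    have := g1 k u hu; have := g2 k v hv; have := h.unit _ _ hu; have := h.unit _ _ hv
    constructor <;> nlinarith
  have hk : ∀ k (x y : ℝ), (∀ u ∈ D (k + 1), x * (u.1 - g k) + y * (u.2 + g (k + 1)) ≤
      (1 - u.1) * (u.1 - g k) + (1 - u.2) * (u.2 + g (k + 1))) →
      x * (l (k + 1) - g k * L) + y * (l (k + 1 + 1) + g (k + 1) * L) ≤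
      (1 + g k) * l (k + 1) + (1 - g (k + 1)) * l (k + 1 + 1) - (1 + g k - g (k + 1)) * L :=
    fun k x y hxy => by
      have := h.len (k + 1) (1 + g k - x) (1 - g (k + 1) - y)
        (1 + g k - g (k + 1) - x * g k + y * g (k + 1)) fun u hu => by
          have := hxy u hu
          have := h.unit _ _ hu
          linarith
      linarith
  have pos : ∀ k, 0 ≤ (1 + g k) * l (k + 1) + (1 - g (k + 1)) * l (k + 1 + 1) -
      (1 + g k - g (k + 1)) * L := fun k => by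
    have := hk k 0 0 fun u hu => by
      have := slack (h.unit _ _ hu) (g2 k u hu) (g1 _ u hu) (gb _).1 (gb _).2
      have := mul_nonneg (show 0 ≤ g (k + 1) ^ 2 / 8 by positivity) (sub_nonneg.2 (g2 k u hu))
      linarith
    linarith
  have tight : ∀ k, (1 + g k) * l (k + 1) + (1 - g (k + 1)) * l (k + 1 + 1) -
      (1 + g k - g (k + 1)) * L = 0 := by
    have h0 : 0 ≤ (1 + g 0) * l 1 + (1 - g 1) * l 2 - (1 + g 0 - g 1) * L := pos 0
    have h1 : 0 ≤ (1 + g 1) * l 2 + (1 - g 2) * l 3 - (1 + g 1 - g 2) * L := pos 1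
    have h2 : 0 ≤ (1 + g 2) * l 3 + (1 - g 3) * l 0 - (1 + g 2 - g 3) * L := pos 2
    have h3 : 0 ≤ (1 + g 3) * l 0 + (1 - g 0) * l 1 - (1 + g 3 - g 0) * L := pos 3
    intro k
    fin_cases k
    · show (1 + g 0) * l 1 + (1 - g 1) * l 2 - (1 + g 0 - g 1) * L = 0; linarith
    · show (1 + g 1) * l 2 + (1 - g 2) * l 3 - (1 + g 1 - g 2) * L = 0; linarith
    · show (1 + g 2) * l 3 + (1 - g 3) * l 0 - (1 + g 2 - g 3) * L = 0; linarith
    · show (1 + g 3) * l 0 + (1 - g 0) * l 1 - (1 + g 3 - g 0) * L = 0; linarith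
  have E1 : ∀ k, g (k + 1) ≠ 0 → l (k + 1) = g k * L := fun k hg => by
    have a := hk k (g (k + 1) ^ 2 / 8) 0 fun u hu => by
      have := slack (h.unit _ _ hu) (g2 k u hu) (g1 _ u hu) (gb _).1 (gb _).2
      linarith
    have b := h.len (k + 1) 1 0 (g k) fun u hu => by linarith [g2 k u hu]
    rw [tight] at a
    have : 0 < g (k + 1) ^ 2 / 8 := by positivity
    have := le_of_mul_le_mul_left (show g (k + 1) ^ 2 / 8 * (l (k + 1) - g k * L) ≤
      g (k + 1) ^ 2 / 8 * 0 by linarith) this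
    linarith
  have E2 : ∀ k, g k ≠ 0 → l (k + 1 + 1) = -g (k + 1) * L := fun k hg => by
    have a := hk k 0 (g k ^ 2 / 8) fun u hu => by
      have := slack (S := u.2) (C := u.1) (g := -g (k + 1)) (h := -g k)
        (by linarith [h.unit _ _ hu]) (by linarith [g1 _ u hu]) (by linarith [g2 k u hu])
        (by linarith [(gb (k + 1)).2]) (by linarith [(gb k).1])
      linarith
    have b := h.len (k + 1) 0 1 (-g (k + 1)) fun u hu => by linarith [g1 _ u hu]
    rw [tight] at a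
    have : 0 < g k ^ 2 / 8 := by positivity
    have := le_of_mul_le_mul_left (show g k ^ 2 / 8 * (l (k + 1 + 1) + g (k + 1) * L) ≤
      g k ^ 2 / 8 * 0 by linarith) this
    linarith
  have sq : ∀ k, g k ≠ 0 → g (k + 1) ≠ 0 → g k ^ 2 + g (k + 1) ^ 2 = 1 := fun k a b => by
    have t := tight k
    rw [E1 k b, E2 k a] at t
    exact mul_right_cancel₀ hL.ne' (by linarith)
  have g0 : ∀ k, g (k + 1 + 1) = 0 := fun k => by
    by_contra hg
    have a1 := E1 _ hg
    have a2 := E2 _ hg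
    have := l1 (k + 1 + 1)
    rcases (l0 (k + 1 + 1)).eq_or_lt with z | z
    · have n : g (k + 1 + 1 + 1) < 0 := by nlinarith
      have s := sq _ hg n.ne
      have a3 := E2 _ n.ne
      have t := tight (k + 1 + 1 + 1)
      by_cases z2 : g (k + 1 + 1 + 1 + 1) = 0
      · rw [a2, a3, z2] at t
        have : (1 + g (k + 1 + 1 + 1)) ^ 2 = 0 := mul_right_cancel₀ hL.ne' (by linarith)
        have : g (k + 1 + 1 + 1) = -1 := by nlinarith
        exact hg (by rw [this] at s; nlinarith)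
      · have := E1 _ z2
        have := l0 (k + 1 + 1 + 1 + 1)
        nlinarith
    · have n : 0 < g (k + 1) := by nlinarith
      have s := sq _ n.ne' hg
      have a3 := E1 _ n.ne'
      have t := tight k
      by_cases z2 : g k = 0
      · rw [a1, a3, z2] at t
        have : (1 - g (k + 1)) ^ 2 = 0 := mul_right_cancel₀ hL.ne' (by linarith)
        have : g (k + 1) = 1 := by nlinarith
        exact hg (by rw [this] at s; nlinarith)
      · have := E2 _ z2
        nlinarith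
  have g0' : ∀ k, g k = 0 := fun k => by
    have := g0 (k - 1 - 1); simpa using this
  refine ⟨fun k u hu => ⟨?_, ?_⟩, fun k => ?_⟩
  · have := g2 (k - 1) u (by simpa using hu)
    rwa [g0'] at this
  · have := g1 k u hu
    rw [g0'] at this; linarith
  · have := tight (k - 1)
    simp only [g0', sub_add_cancel] at this
    linarith

end

variable {δ : ℝ → ℂ} {r0 r1 r2 r3 L : ℝ}

theorem Fr.sys (h : Fr δ r0 r1 r2 r3) (hL : 0 < L) (h1 : Len δ r1 r2 L) (h2 : Len δ r2 r3 L)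
    (h3 : Len δ r3 (r0 + 1) L) (h4 : Len δ (r0 + 1) (r1 + 1) L) :
    Sys ![Ch δ r1 r2, Ch (MP_0815b2_gt.rot δ) r2 r3,
      Ch (MP_0815b2_gt.rot (MP_0815b2_gt.rot δ)) r3 (r0 + 1),
      Ch (MP_0815b2_gt.rot (MP_0815b2_gt.rot (MP_0815b2_gt.rot δ))) (r0 + 1) (r1 + 1)]
      ![(δ r1).re - (δ r2).re, (δ r2).im - (δ r1).im, (δ r2).re - (δ r3).re,
        (δ r1).im - (δ r0).im] L := by
  have k1 := h.rot
  have k2 := k1.rot
  have k3 := k2.rot
  have e4 : MP_0815b2_gt.rot (MP_0815b2_gt.rot (MP_0815b2_gt.rot (MP_0815b2_gt.rot δ))) = δ := by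
    funext t; apply Complex.ext <;> simp [rot_re, rot_im]
  have sh : Ch δ r1 r2 ⊆ Ch δ (r1 + 1) (r2 + 1) := by
    rintro _ ⟨s, t, a1, a2, a3, a4, rfl⟩
    exact ⟨s + 1, t + 1, by linarith, by linarith, by linarith, by simpa [h.per] using a4,
      by simp [h.per]⟩
  have e1 := h.e1; have e3 := h.e3
  refine ⟨hL, fun k => ?_, fun k => ?_, fun k => ?_, fun k => ?_, fun k a b c hc => ?_⟩
  · fin_cases k
    exacts [h.ne, k1.ne, k2.ne, k3.ne]
  · fin_cases k <;> exact ch_unit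
  · fin_cases k
    exacts [h.quad, k1.quad, k2.quad, k3.quad]
  · fin_cases k
    exacts [h.mono, k1.mono, k2.mono, fun u hu v hv => k3.mono u hu v (e4.symm ▸ sh hv)]
  · fin_cases k
    · exact h1.ch a b c hc
    · have := h2.rot.ch a b c hc
      simp only [rot_re, rot_im] at this
      show _ ≤ a * ((δ r2).im - (δ r1).im) + b * ((δ r2).re - (δ r3).re)
      rw [e1]; linarith
    · have := h3.rot.rot.ch a b c hc
      simp only [rot_re, rot_im, h.per] at this
      show _ ≤ a * ((δ r2).re - (δ r3).re) + b * ((δ r1).im - (δ r0).im)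
      rw [e1, e3]; linarith
    · have := h4.rot.rot.rot.ch a b c hc
      simp only [rot_re, rot_im, h.per] at this
      show _ ≤ a * ((δ r1).im - (δ r0).im) + b * ((δ r1).re - (δ r2).re)
      rw [e3]; linarith

end Pool.Agent.H.MP_0815b2_gt
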