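import Mathlib
import Pool.Agent.H.MP_bff4fe_gt.A

namespace Pool.Agent.H.MP_0815b2_gt
open Complex Set

variable {δ : ℝ → ℂ} {r0 r1 r2 r3 L : ℝ}

def Mo (δ : ℝ → ℂ) (r r' : ℝ) : Prop :=
  ∀ s t, r ≤ s → s ≤ t → t ≤ r' → (δ t).re ≤ (δ s).re ∧ (δ s).im ≤ (δ t).im

theorem mo_of_ch {r r' : ℝ} (h : ∀ u ∈ Ch δ r r', 0 ≤ u.1 ∧ 0 ≤ u.2) : Mo δ r r' := by
  intro s t h1 h2 h3
  by_cases hn : δ t = δ s
  · simp [hn]
  have hp : 0 < ‖δ t - δ s‖ := norm_pos_iff.2 (sub_ne_zero.2 hn)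
  obtain ⟨a, b⟩ := h _ ⟨s, t, h1, h2, h3, hn, rfl⟩
  simp only [le_div_iff₀ hp, zero_mul, sub_re, sub_im] at a b
  constructor <;> linarith

theorem nrm {z : ℂ} {k : ℝ} (h1 : z.re ≤ 0) (h2 : 0 ≤ z.im) (k0 : 0 ≤ k) (k1 : k ≤ 1)
    (h : k * z.im ≤ (1 - k) * -z.re) : ‖z‖ ≤ -z.re + (1 - k) * z.im := by
  have p := mul_nonneg (sub_nonneg.2 k1) h2
  refine (sq_le_sq₀ (norm_nonneg _) (by linarith)).1 ?_
  rw [Complex.sq_norm, normSq_apply]
  nlinarith [mul_le_mul_of_nonneg_right h h2, mul_nonneg k0 (mul_nonneg k0 (mul_nonneg h2 h2))]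

theorem Fr.corner (h : Fr δ r0 r1 r2 r3) (cont : Continuous δ) (hl : Len δ r1 r2 L)
    (hm : Mo δ r1 r2) (hx : (δ r2).re < (δ r1).re) (hy : (δ r1).im < (δ r2).im)
    (he : (δ r1).re - (δ r2).re + ((δ r2).im - (δ r1).im) = L) :
    ∃ s, (δ s).re = (δ r1).re ∧ (δ s).im = (δ r2).im := by
  have := h.l1; have := h.l2; have := h.l3; have := h.l4
  have side : ∀ s, r1 ≤ s → s ≤ r2 → (δ s).re = (δ r1).re ∨ (δ s).im = (δ r2).im := by
    intro s s1 s2
    by_contra hn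
    push Not at hn
    have x1 : 0 < (δ r1).re - (δ s).re :=
      sub_pos.2 (lt_of_le_of_ne (hm r1 s le_rfl s1 s2).1 hn.1)
    have y1 : 0 ≤ (δ s).im - (δ r1).im := sub_nonneg.2 (hm r1 s le_rfl s1 s2).2
    have y2 : 0 < (δ r2).im - (δ s).im :=
      sub_pos.2 (lt_of_le_of_ne (hm s r2 s1 s2 le_rfl).2 hn.2)
    obtain ⟨k, hk⟩ : ∃ k, k * ((δ r1).re - (δ s).re + ((δ s).im - (δ r1).im)) =
      (δ r1).re - (δ s).re := ⟨_, div_mul_cancel₀ _ (by linarith)⟩
    have k0 : 0 < k := by nlinarith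
    have k1 : k ≤ 1 := by nlinarith
    let ψ : ℝ → ℝ := fun t => -(δ t).re + (δ t).im - k * max (δ t).im (δ s).im
    have A : ∀ s' t', r1 ≤ s' → s' ≤ t' → t' ≤ s → ‖δ t' - δ s'‖ ≤ ψ t' - ψ s' := by
      intro s' t' a1 a2 a3
      have m := hm s' t' a1 a2 (by linarith)
      have := nrm (z := δ t' - δ s') (k := 0) (by simp [m.1]) (by simp [m.2]) le_rfl zero_le_one
        (by simp [m.1])
      simp only [ψ, max_eq_right (hm t' s (by linarith) a3 s2).2,
        max_eq_right (hm s' s a1 (by linarith) s2).2]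
      simp only [sub_re, sub_im] at this
      linarith
    have B : ∀ s' t', s ≤ s' → s' ≤ t' → t' ≤ r2 → ‖δ t' - δ s'‖ ≤ ψ t' - ψ s' := by
      intro s' t' a1 a2 a3
      have m := hm s' t' (by linarith) a2 a3
      have m2 := hm s t' s1 (by linarith) a3
      have o1 := h.ori r1 s t' s1 (by linarith) (by linarith)
      have o2 := h.ori r1 s' t' (by linarith) a2 (by linarith)
      simp only [orr] at o1 o2
      have d : ((δ r1).re - (δ s).re) * ((δ t').im - (δ s').im) ≤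
          ((δ s).im - (δ r1).im) * ((δ s').re - (δ t').re) :=
        le_of_mul_le_mul_left (a := (δ r1).re - (δ t').re)
          (by linarith [mul_nonneg o2 x1.le, mul_nonneg o1 (sub_nonneg.2 m.1)]) (by linarith)
      have := nrm (z := δ t' - δ s') (k := k) (by simp [m.1]) (by simp [m.2]) k0.le k1
        (le_of_mul_le_mul_left (a := (δ r1).re - (δ s).re + ((δ s).im - (δ r1).im)) (by
          simp only [sub_re, sub_im]
          linear_combination d + ((δ t').im - (δ s').im + ((δ s').re - (δ t').re)) * hk)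
          (by linarith))
      simp only [ψ, max_eq_left m2.2, max_eq_left (hm s s' s1 a1 (by linarith)).2]
      simp only [sub_re, sub_im] at this
      linarith
    have := hl ψ 1 fun s' t' a1 a2 a3 => by
      rw [one_mul]
      rcases le_total t' s with c | c
      · exact A s' t' a1 a2 c
      rcases le_total s s' with c' | c'
      · exact B s' t' c' a2 a3
      have := norm_add_le (δ t' - δ s) (δ s - δ s')
      rw [sub_add_sub_cancel] at this
      linarith [A s' s a1 c' le_rfl, B s t' le_rfl c a3]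
    simp only [ψ, max_eq_left (sub_pos.1 y2).le, max_eq_right (sub_nonneg.1 y1)] at this
    nlinarith [mul_pos k0 y2]
  have cf : Continuous fun t => ((δ r1).re - (δ t).re) - ((δ r2).im - (δ t).im) := by fun_prop
  obtain ⟨s, ⟨s1, s2⟩, hs⟩ := intermediate_value_Icc h.l2.le cf.continuousOn
    (show (0 : ℝ) ∈ Icc _ _ from ⟨by linarith, by linarith⟩)
  refine ⟨s, ?_⟩
  simp only at hs
  rcases side s s1 s2 with c | c <;> constructor <;> linarith

def Box (δ : ℝ → ℂ) : Prop := ∃ x0 x1 y0 y1 : ℝ, x0 < x1 ∧ y0 < y1 ∧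
  (∀ t, x0 ≤ (δ t).re ∧ (δ t).re ≤ x1 ∧ y0 ≤ (δ t).im ∧ (δ t).im ≤ y1) ∧
  (∃ s, δ s = ⟨x0, y0⟩) ∧ (∃ s, δ s = ⟨x1, y0⟩) ∧ (∃ s, δ s = ⟨x0, y1⟩) ∧ ∃ s, δ s = ⟨x1, y1⟩

theorem Fr.box (h : Fr δ r0 r1 r2 r3) (cont : Continuous δ) (hL : 0 < L) (h1 : Len δ r1 r2 L)
    (h2 : Len δ r2 r3 L) (h3 : Len δ r3 (r0 + 1) L) (h4 : Len δ (r0 + 1) (r1 + 1) L)
    (he : 2 * L = ((δ r1).re - (δ r3).re) + ((δ r2).im - (δ r0).im)) : Box δ := by
  have := h.l1; have := h.l2; have := h.l3; have := h.l4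
  have e1 := h.e1; have e2 := h.e2; have e3 := h.e3; have e4 := h.e4
  have o1 := h.ori r1 r2 r3 (by linarith) (by linarith) (by linarith)
  have o2 := h.ori r2 r3 (r0 + 1) (by linarith) (by linarith) (by linarith)
  have o3 := h.ori r0 r1 r3 (by linarith) (by linarith) (by linarith)
  have o4 := h.ori r0 r1 r2 (by linarith) (by linarith) (by linarith)
  simp only [orr, h.per] at o1 o2 o3 o4
  have c1 : (δ r1).im ≤ (δ r2).im := by rw [e1] at o1 ⊢; nlinarith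
  have c2 : (δ r3).re ≤ (δ r2).re := by rw [e3] at o2 ⊢; nlinarith
  have c3 : (δ r0).im ≤ (δ r1).im := by rw [e1] at o3 ⊢; nlinarith
  have c4 : (δ r2).re ≤ (δ r1).re := by rw [e3] at o4 ⊢; nlinarith
  obtain ⟨q, t⟩ := (h.sys hL h1 h2 h3 h4).eq
    (fun k => by fin_cases k <;> simp <;> linarith)
    (fun k => by fin_cases k <;> simp <;> linarith) (by simp only [Matrix.cons_val]; linarith)
  have t0 : (δ r1).re - (δ r2).re + ((δ r2).im - (δ r1).im) = L := t 0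
  have t1 : (δ r2).im - (δ r1).im + ((δ r2).re - (δ r3).re) = L := t 1
  have t2 : (δ r2).re - (δ r3).re + ((δ r1).im - (δ r0).im) = L := t 2
  have m0 : Mo δ r1 r2 := mo_of_ch (q 0)
  have m1 : Mo (MP_0815b2_gt.rot δ) r2 r3 := mo_of_ch (q 1)
  have m2 : Mo (MP_0815b2_gt.rot (MP_0815b2_gt.rot δ)) r3 (r0 + 1) := mo_of_ch (q 2)
  have m3 : Mo (MP_0815b2_gt.rot (MP_0815b2_gt.rot (MP_0815b2_gt.rot δ))) (r0 + 1) (r1 + 1) :=
    mo_of_ch (q 3)
  have cr : ∀ δ : ℝ → ℂ, Continuous δ → Continuous (MP_0815b2_gt.rot δ) := fun δ hd => by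
    unfold MP_0815b2_gt.rot; fun_prop
  obtain ⟨s0, a0⟩ := h.corner cont h1 m0 (by linarith) (by linarith) t0
  obtain ⟨s1, a1⟩ := h.rot.corner (cr _ cont) h2.rot m1 (by simp only [rot_re]; linarith)
    (by simp only [rot_im]; linarith) (by simp only [rot_re, rot_im]; linarith)
  obtain ⟨s2, a2⟩ := h.rot.rot.corner (cr _ (cr _ cont)) h3.rot.rot m2
    (by simp only [rot_re, rot_im, h.per]; linarith)
    (by simp only [rot_re, rot_im, h.per]; linarith) (by simp only [rot_re, rot_im, h.per]; linarith)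
  obtain ⟨s3, a3⟩ := h.rot.rot.rot.corner (cr _ (cr _ (cr _ cont))) h4.rot.rot.rot m3
    (by simp only [rot_re, rot_im, h.per]; linarith)
    (by simp only [rot_re, rot_im, h.per]; linarith) (by simp only [rot_re, rot_im, h.per]; linarith)
  simp only [rot_re, rot_im, h.per] at a1 a2 a3
  refine ⟨(δ r3).re, (δ r1).re, (δ r0).im, (δ r2).im, e2, e4, fun t => ?_,
    ⟨s2, Complex.ext (by linarith [a2.1]) (by linarith [a2.2])⟩,
    ⟨s3, Complex.ext (by linarith [a3.2]) (by linarith [a3.1])⟩,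
    ⟨s1, Complex.ext (by linarith [a1.2]) (by linarith [a1.1])⟩,
    ⟨s0, Complex.ext a0.1 a0.2⟩⟩
  have p := Function.Periodic.sub_int_mul_eq (f := δ) (c := 1) h.per (x := t) ⌊t - r1⌋
  have f1 := Int.floor_le (t - r1)
  have f2 := Int.lt_floor_add_one (t - r1)
  rw [← p, mul_one]
  have b1 : r1 ≤ t - ⌊t - r1⌋ := by linarith
  have b2 : t - ⌊t - r1⌋ ≤ r1 + 1 := by linarith
  generalize t - ⌊t - r1⌋ = s at b1 b2
  rcases le_total s r2 with d1 | d1
  · have := m0 r1 s le_rfl b1 d1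
    have := m0 s r2 b1 d1 le_rfl
    refine ⟨?_, ?_, ?_, ?_⟩ <;> linarith
  rcases le_total s r3 with d2 | d2
  · have g1 := m1 r2 s le_rfl d1 d2
    have g2 := m1 s r3 d1 d2 le_rfl
    simp only [rot_re, rot_im] at g1 g2
    refine ⟨?_, ?_, ?_, ?_⟩ <;> linarith
  rcases le_total s (r0 + 1) with d3 | d3
  · have g1 := m2 r3 s le_rfl d2 d3
    have g2 := m2 s (r0 + 1) d2 d3 le_rfl
    simp only [rot_re, rot_im, h.per] at g1 g2
    refine ⟨?_, ?_, ?_, ?_⟩ <;> linarith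
  · have g1 := m3 (r0 + 1) s le_rfl d3 b2
    have g2 := m3 s (r1 + 1) d3 b2 le_rfl
    simp only [rot_re, rot_im, h.per] at g1 g2
    refine ⟨?_, ?_, ?_, ?_⟩ <;> linarith

theorem half {γ : ℝ → ℂ} (cont : Continuous γ) (hp : ∀ t, γ (t + 1) = γ t)
    (inj : ∀ s t, s < t → t < s + 1 → γ t ≠ γ s) (ori : OR γ) {t0 t1 t2 t3 L : ℝ}
    (h1 : t0 < t1) (h2 : t1 < t2) (h3 : t2 < t3) (h4 : t3 < t0 + 1) (hL : 0 < L)
    (l1 : Len γ t0 t1 L) (l2 : Len γ t1 t2 L) (l3 : Len γ t2 t3 L) (l4 : Len γ t3 (t0 + 1) L)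
    (hperp : (γ t0 - γ t2).re * (γ t1 - γ t3).re + (γ t0 - γ t2).im * (γ t1 - γ t3).im = 0) :
    2 * L ≤ ‖γ t0 - γ t2‖ + ‖γ t1 - γ t3‖ ∧ (2 * L = ‖γ t0 - γ t2‖ + ‖γ t1 - γ t3‖ →
      ∃ e : Circle, Box fun t => rotation e (γ t)) := by
  have hx : 0 < ‖γ t0 - γ t2‖ :=
    norm_pos_iff.2 (sub_ne_zero.2 (inj t0 t2 (by linarith) (by linarith)).symm)
  set x := ‖γ t0 - γ t2‖ with hxd
  let e : ℂ := (starRingEnd ℂ) (γ t0 - γ t2) / (x : ℝ)
  have he : ‖e‖ = 1 := by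
    simp only [e, norm_div, Complex.norm_conj, ← hxd]
    simp [hx.ne', abs_of_pos hx]
  let δ : ℝ → ℂ := fun t => e * γ t
  have hn : ∀ s t, ‖δ t - δ s‖ = ‖γ t - γ s‖ := fun s t => by
    simp only [δ, ← mul_sub, norm_mul, he, one_mul]
  have hl : ∀ r r', Len γ r r' L → Len δ r r' L := fun r r' h ψ c hc =>
    h ψ c fun s t a b d => hn s t ▸ hc s t a b d
  have pe : ∀ t, δ (t + 1) = δ t := fun t => by simp only [δ, hp]
  have ij : ∀ s t, s < t → t < s + 1 → δ t ≠ δ s := fun s t a b c =>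
    inj s t a b (by rw [← sub_eq_zero, ← norm_eq_zero, ← hn, c]; simp)
  have od : OR δ := fun s t u a b c => by
    have := ori s t u a b c
    have e2 : orr (δ s) (δ t) (δ u) = (e.re * e.re + e.im * e.im) * orr (γ s) (γ t) (γ u) := by
      simp [δ, orr]; ring
    rw [e2]
    exact mul_nonneg (add_nonneg (mul_self_nonneg _) (mul_self_nonneg _)) this
  have k1 : δ t0 - δ t2 = (x : ℝ) := by
    have : ((x : ℝ) : ℂ) ≠ 0 := by exact_mod_cast hx.ne'
    simp only [δ, ← mul_sub, e]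
    rw [div_mul_eq_mul_div, Complex.conj_mul', ← hxd]
    field_simp
  have k2 : (δ t1 - δ t3).re = 0 := by
    simp only [δ, ← mul_sub, e]
    rw [div_mul_eq_mul_div, Complex.div_ofReal_re, Complex.mul_re, Complex.conj_re,
      Complex.conj_im, div_eq_zero_iff]
    left; linarith
  have a1 := congrArg Complex.re k1
  have a2 := congrArg Complex.im k1
  simp only [Complex.sub_re, Complex.sub_im, Complex.ofReal_re, Complex.ofReal_im] at a1 a2 k2
  have o1 := od t0 t1 t2 h1.le h2.le (by linarith)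
  have o2 := od t0 t2 t3 (by linarith) h3.le h4.le
  simp only [orr] at o1 o2
  rw [show (δ t2).im - (δ t0).im = 0 by linarith, show (δ t2).re - (δ t0).re = -x by linarith]
    at o1 o2
  have b1 : (δ t0).im ≤ (δ t1).im := le_of_mul_le_mul_right (by linarith) hx
  have b2 : (δ t3).im ≤ (δ t0).im := le_of_mul_le_mul_right (by linarith) hx
  have b3 : (δ t3).im < (δ t1).im := lt_of_le_of_ne (b2.trans b1) fun h =>
    ij t1 t3 (by linarith) (by linarith) (Complex.ext (by linarith) h)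
  have p3 : δ (t3 - 1) = δ t3 := by rw [← pe, sub_add_cancel]
  have fr : Fr δ (t3 - 1) t0 t1 t2 := ⟨by linarith, h1, h2, by linarith, pe, ij, od, by linarith,
    by linarith, by rw [p3]; linarith, by rw [p3]; exact b3⟩
  have b4 : ‖γ t1 - γ t3‖ = (δ t1).im - (δ t3).im := by
    rw [← hn, show δ t1 - δ t3 = ((δ t1).im - (δ t3).im : ℝ) * I from
      Complex.ext (by simpa using k2) (by simp)]
    rw [norm_mul, norm_I, mul_one, norm_real, Real.norm_of_nonneg (by linarith)]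
  have m3 : Len δ t2 (t3 - 1 + 1) L := by rw [sub_add_cancel]; exact hl _ _ l3
  have m4 : Len δ (t3 - 1 + 1) (t0 + 1) L := by rw [sub_add_cancel]; exact hl _ _ l4
  have := fr.main hL (hl _ _ l1) (hl _ _ l2) m3 m4
  rw [p3] at this
  refine ⟨by linarith, fun hq => ⟨⟨e, mem_sphere_zero_iff_norm.2 he⟩, ?_⟩⟩
  exact fr.box (by fun_prop) hL (hl _ _ l1) (hl _ _ l2) m3 m4 (by rw [p3]; linarith)

end Pool.Agent.H.MP_0815b2_gt
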